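import Pool.Agent.W988.RA.Defs

open MeasureTheory
open scoped ENNReal BigOperators

set_option autoImplicit false

namespace Pool.Agent.W701.RA.Sel

open Pool.Agent.W988.RA

lemma continuous_dtm (n : ℕ) : Continuous (dtm : MM n → ℝ) := by
  unfold dtm
  exact (Continuous.matrix_det (A := fun M : MM n => Matrix.of M) continuous_id).abs

lemma measurable_Ph (h : S_RVP) (n m : ℕ) : Measurable (Ph : AR n m → ℝ≥0∞) := by
  have hc := h.1 n m
  have hS : MeasurableSet {q : AR n m × MM n | RV q.1 q.2 ≤ 2} :=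
    (isClosed_le hc continuous_const).measurableSet
  have hd : Measurable fun q : AR n m × MM n => ENNReal.ofReal (dtm q.2 ^ m) :=
    ENNReal.measurable_ofReal.comp (((continuous_dtm n).comp continuous_snd).pow m).measurable
  have e : (Ph : AR n m → ℝ≥0∞) = fun V => ∫⁻ M : MM n,
      ({q : AR n m × MM n | RV q.1 q.2 ≤ 2}.indicator
        (fun q => ENNReal.ofReal (dtm q.2 ^ m))) (V, M) := by
    funext V
    unfold Ph
    have hV : MeasurableSet {M : MM n | RV V M ≤ 2} := measurable_prodMk_left hS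
    rw [← lintegral_indicator hV]
    rfl
  rw [e]
  exact (hd.indicator hS).lintegral_prod_right'

lemma PV_le {n m : ℕ} (V : AR n m) : volume (PV V) ≤ ENNReal.ofReal (2 ^ n) := by
  have hsub : PV V ⊆ Set.Icc (fun _ : Fin n => (-1 : ℝ)) (fun _ => 1) := by
    intro y hy
    have h1 : ∀ j, |y j| ≤ 1 := by
      intro j
      have h2 := hy (Sum.inl j)
      have h3 : ∑ k, y k * wv V (Sum.inl j) k = y j := by
        simp [wv, Pi.single_apply]
      rwa [h3] at h2
    exact ⟨fun j => (abs_le.mp (h1 j)).1, fun j => (abs_le.mp (h1 j)).2⟩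
  refine (measure_mono hsub).trans ?_
  rw [Real.volume_Icc_pi]
  have : ∀ i : Fin n, ENNReal.ofReal ((1 : ℝ) - (-1)) = ENNReal.ofReal 2 := fun i => by norm_num
  rw [Finset.prod_congr rfl fun i _ => this i, Finset.prod_const, Finset.card_univ,
    Fintype.card_fin, ENNReal.ofReal_pow (by norm_num)]

lemma QQ_eq (n m : ℕ) (a : ℝ) : QQ n m a = Set.Icc (fun _ => -a) (fun _ => a) := by
  ext V
  simp only [QQ, Set.mem_ofPred_eq, Set.mem_Icc, abs_le, Pi.le_def]
  exact forall_and

lemma QQ_vol (n m : ℕ) (a : ℝ) (ha : 0 ≤ a) :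
    volume (QQ n m a) = ENNReal.ofReal ((2 * a) ^ (n * m)) := by
  rw [QQ_eq, Real.volume_Icc_pi, Finset.prod_const, Finset.card_univ, Fintype.card_prod,
    Fintype.card_fin, Fintype.card_fin, ENNReal.ofReal_pow (by positivity)]
  congr 2
  ring

theorem result (hVK : S_VK) (hBALL : S_BALL) (hPHI : S_PHI) (hBAD : S_BAD) (hPVV : S_PVV)
    (hNUM : S_NUM) (hRVP : S_RVP) : S_SEL := by
  intro θ hθ
  obtain ⟨n, L, s, hn, hL, hs, hLn, hexp, hlog, hnum⟩ := hNUM θ hθ
  have hn' : (0 : ℝ) < n := by exact_mod_cast hn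
  have hm : 0 < 2 * n := by omega
  have hcast : ((2 * n : ℕ) : ℝ) = 2 * (n : ℝ) := by push_cast; ring
  have hsq : 0 < Real.sqrt n := Real.sqrt_pos.mpr hn'
  set c0 : ℝ := θ ^ (n * (2 * n)) * (1 / 2 * (2 * s) ^ (n * n)) with hc0
  have hc0pos : 0 < c0 := by positivity
  set A1 : ℝ := Real.sqrt (24 * Real.pi * Real.exp 1 / n) ^ (n * n) * (2 ^ (n * (2 * n)) *
    (2 * (3 * Real.pi * Real.exp 1 / (L * Real.sqrt n)) ^ (n * (2 * n)))) with hA1
  set Y : ℝ := (2 / Real.sqrt n) ^ (n * (2 * n)) with hY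
  have hYpos : 0 < Y := by positivity
  set p : ℝ := 1 / 2 * (8 / 9) ^ n with hp
  -- the integral of `Ph`
  have hI : ∫⁻ V : AR n (2 * n), Ph V ≤ ENNReal.ofReal A1 := by
    refine (hPHI n (2 * n) hn hm).trans ?_
    have h1 := hBALL n hn
    have h2 := hVK n (2 * n) L hn hm hL hLn (by rw [hcast]; exact hexp)
    calc volume {M : MM n | ∑ k, ∑ j, M k j ^ 2 ≤ 12 * n} *
        (ENNReal.ofReal (2 ^ (n * (2 * n))) * volume (KK n (2 * n)))
        ≤ ENNReal.ofReal (Real.sqrt (24 * Real.pi * Real.exp 1 / n) ^ (n * n)) *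
          (ENNReal.ofReal (2 ^ (n * (2 * n))) * ENNReal.ofReal
            (2 * (3 * Real.pi * Real.exp 1 / (L * Real.sqrt n)) ^ (n * (2 * n)))) := by
          gcongr
      _ = ENNReal.ofReal A1 := by
          rw [← ENNReal.ofReal_mul (by positivity), ← ENNReal.ofReal_mul (by positivity)]
  -- Markov
  have hmeas := measurable_Ph hRVP n (2 * n)
  set T : Set (AR n (2 * n)) := {V | ENNReal.ofReal c0 ≤ Ph V} with hT
  have hTm : MeasurableSet T := measurableSet_le measurable_const hmeas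
  have hMar : ENNReal.ofReal c0 * volume T ≤ ENNReal.ofReal A1 :=
    (mul_meas_ge_le_lintegral hmeas _).trans hI
  set B1 : ℝ := 1 / 2 * (4 / 9) ^ n * Y with hB1
  have hlt : A1 < B1 * c0 := hnum
  have hTB : volume T < ENNReal.ofReal B1 := by
    by_contra hcon
    push Not at hcon
    have h1 : ENNReal.ofReal (c0 * B1) ≤ ENNReal.ofReal A1 := by
      rw [ENNReal.ofReal_mul hc0pos.le]
      exact (mul_le_mul_right hcon _).trans hMar
    have hA10 : 0 ≤ A1 := by positivity
    rw [ENNReal.ofReal_le_ofReal_iff hA10] at h1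
    linarith [mul_comm c0 B1]
  have hTtop : volume T ≠ ⊤ := (hTB.trans ENNReal.ofReal_lt_top).ne
  set t : ℝ := (volume T).toReal with ht
  have hTt : volume T = ENNReal.ofReal t := (ENNReal.ofReal_toReal hTtop).symm
  have htB : t < B1 := by
    rw [hTt] at hTB
    exact (ENNReal.ofReal_lt_ofReal_iff (by positivity)).mp hTB
  -- existence
  obtain ⟨V, hVQ, hVP, hVv⟩ : ∃ V : AR n (2 * n), V ∈ QQ n (2 * n) (1 / Real.sqrt n) ∧
      Ph V < ENNReal.ofReal c0 ∧ ENNReal.ofReal p ≤ volume (PV V) := by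
    by_contra hcon
    push Not at hcon
    have hQm : MeasurableSet (QQ n (2 * n) (1 / Real.sqrt n)) := by
      rw [QQ_eq]; exact measurableSet_Icc
    have h1 : ∫⁻ V in QQ n (2 * n) (1 / Real.sqrt n), volume (PV V) ≤
        ∫⁻ V in QQ n (2 * n) (1 / Real.sqrt n),
          (T.indicator (fun _ => ENNReal.ofReal (2 ^ n)) V + ENNReal.ofReal p) := by
      refine setLIntegral_mono' hQm fun V hV => ?_
      by_cases hVT : V ∈ T
      · rw [Set.indicator_of_mem hVT]
        exact (PV_le V).trans le_self_add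
      · rw [Set.indicator_of_notMem hVT, zero_add]
        have hlt' : Ph V < ENNReal.ofReal c0 := not_le.mp hVT
        exact (hcon V hV hlt').le
    rw [lintegral_add_right _ measurable_const, lintegral_indicator_const hTm,
      setLIntegral_const, QQ_vol n (2 * n) _ (by positivity)] at h1
    have h2 := (hPVV n (2 * n) hn).trans h1
    have h3 : ENNReal.ofReal (2 ^ n) * (volume.restrict (QQ n (2 * n) (1 / Real.sqrt n))) T
        ≤ ENNReal.ofReal (2 ^ n) * volume T :=
      mul_le_mul_right (Measure.restrict_le_self T) _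
    have h4 := h2.trans (add_le_add_left h3 _)
    have hY' : (2 * (1 / Real.sqrt (n : ℝ))) ^ (n * (2 * n)) = Y := by
      rw [hY]; congr 1; ring
    rw [hY', hTt, ← ENNReal.ofReal_mul (by positivity), ← ENNReal.ofReal_mul (by positivity),
      ← ENNReal.ofReal_add (by positivity) (by positivity),
      ENNReal.ofReal_le_ofReal_iff (by positivity)] at h4
    have h5 : (2 : ℝ) ^ n * (2 / 3) ^ (2 * n) * Y = (8 / 9) ^ n * Y := by
      rw [pow_mul, ← mul_pow]
      norm_num
    have h6 : (2 : ℝ) ^ n * B1 = 1 / 2 * (8 / 9) ^ n * Y := by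
      rw [hB1]
      have : (2 : ℝ) ^ n * (1 / 2 * (4 / 9) ^ n * Y) = 1 / 2 * (2 ^ n * (4 / 9) ^ n) * Y := by ring
      rw [this, ← mul_pow]
      norm_num
    have h7 : (2 : ℝ) ^ n * t < 2 ^ n * B1 := mul_lt_mul_of_pos_left htB (by positivity)
    rw [h5] at h4
    have h8 : p * Y = 1 / 2 * (8 / 9) ^ n * Y := by rw [hp]
    linarith
  refine ⟨n, V, hn, hVQ, hVv, fun M hM => ?_⟩
  by_contra hcon
  push Not at hcon
  have hlog' : 8 * s ^ 2 * n * Real.log (2 * ((n : ℝ) + ((2 * n : ℕ) : ℝ))) ≤ 1 := by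
    rw [hcast]
    have : 2 * ((n : ℝ) + 2 * n) = 6 * n := by ring
    rw [this]
    exact hlog
  have h1 := (hBAD n (2 * n) V s hn hm hVQ hs hlog' M hM).trans_lt hVP
  have h2 := (ENNReal.ofReal_lt_ofReal_iff hc0pos).mp h1
  rw [hc0] at h2
  have h3 : dtm M ^ (2 * n) < θ ^ (n * (2 * n)) := lt_of_mul_lt_mul_right h2 (by positivity)
  rw [pow_mul θ n (2 * n)] at h3
  have h4 : (θ ^ n) ^ (2 * n) < dtm M ^ (2 * n) :=
    pow_lt_pow_left₀ hcon (by positivity) (by omega)
  linarith

end Pool.Agent.W701.RA.Sel
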